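import Pool.Agent.Helper12_UNF.Stmts2

set_option autoImplicit false

/-!
# Squad UNF, module PTH: the product of the even and the product of the odd generators of a path
-/

namespace Unf.H88

open Art

variable {G : Type} [Group G]

/-- The product of the `g i` with `a ≤ i < b` and `i % 2 = q`, in increasing order. -/
def Sp (g : ℕ → G) (q a b : ℕ) : G :=
  (((List.range' a (b - a)).filter (fun i => i % 2 = q)).map g).prod

theorem Sp_split (g : ℕ → G) (q : ℕ) {a b c : ℕ} (hab : a ≤ b) (hbc : b ≤ c) :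
    Sp g q a c = Sp g q a b * Sp g q b c := by
  unfold Sp
  have h : List.range' a (c - a) = List.range' a (b - a) ++ List.range' b (c - b) := by
    have := List.range'_append_1 (s := a) (m := b - a) (n := c - b)
    rw [show a + (b - a) = b by omega, show b - a + (c - b) = c - a by omega] at this
    exact this.symm
  rw [h, List.filter_append, List.map_append, List.prod_append]

theorem Sp_one (g : ℕ → G) (q a : ℕ) (h : a % 2 = q) : Sp g q a (a + 1) = g a := by
  unfold Sp
  rw [show a + 1 - a = 1 by omega]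
  simp [List.range', h]

theorem Sp_one' (g : ℕ → G) (q a : ℕ) (h : a % 2 ≠ q) : Sp g q a (a + 1) = 1 := by
  unfold Sp
  rw [show a + 1 - a = 1 by omega]
  simp [List.range', h]

theorem Sp_self (g : ℕ → G) (q a : ℕ) : Sp g q a a = 1 := by
  unfold Sp
  simp

theorem Sp_comm (g : ℕ → G) (q a b : ℕ) (x : G)
    (h : ∀ i, a ≤ i → i < b → i % 2 = q → x * g i = g i * x) : x * Sp g q a b = Sp g q a b * x := by
  have key : ∀ l : List ℕ, (∀ i ∈ l, x * g i = g i * x) → x * (l.map g).prod = (l.map g).prod * x := by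
    intro l
    induction l with
    | nil => intro _; simp
    | cons y l ih =>
      intro hl
      rw [List.map_cons, List.prod_cons, ← mul_assoc, hl y (by simp), mul_assoc,
        ih (fun i hi => hl i (by simp [hi])), mul_assoc]
  apply key
  intro i hi
  rw [List.mem_filter, List.mem_range'_1] at hi
  obtain ⟨⟨h1, h2⟩, h3⟩ := hi
  exact h i h1 (by omega) (by simpa using h3)

theorem Sp_skip (g : ℕ → G) (q a m : ℕ) (h : a % 2 ≠ q) : Sp g q a m = Sp g q (a + 1) m := by
  by_cases h1 : a + 1 ≤ m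
  · rw [Sp_split g q (Nat.le_succ a) h1, Sp_one' g q a h, one_mul]
  · unfold Sp
    rw [show m - a = 0 by omega, show m - (a + 1) = 0 by omega]
    simp

theorem Sp_empty (g : ℕ → G) (q a b : ℕ) (h : b ≤ a) : Sp g q a b = 1 := by
  unfold Sp
  rw [show b - a = 0 by omega]
  simp

theorem Sp_shift (g g' : ℕ → G) (k a b : ℕ) (x : G)
    (h : ∀ i, a ≤ i → i < b → i % 2 = k % 2 → g i * x = x * g' (i + 1)) :
    Sp g (k % 2) a b * x = x * Sp g' ((k + 1) % 2) (a + 1) (b + 1) := by
  have key : ∀ l : List ℕ, (∀ i ∈ l, g i * x = x * g' (i + 1)) →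
      (l.map g).prod * x = x * (l.map (fun i => g' (i + 1))).prod := by
    intro l
    induction l with
    | nil => intro _; simp
    | cons y l ih =>
      intro hl
      rw [List.map_cons, List.prod_cons, List.map_cons, List.prod_cons, mul_assoc,
        ih (fun i hi => hl i (by simp [hi])), ← mul_assoc, hl y (by simp), mul_assoc]
  unfold Sp
  rw [key]
  · congr 1
    rw [show b + 1 - (a + 1) = b - a by omega]
    have h1 : List.range' (a + 1) (b - a) = (List.range' a (b - a)).map (fun i => i + 1) := by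
      rw [List.map_congr_left (g := fun i => 1 + i) (fun i _ => Nat.add_comm i 1),
        List.map_add_range', Nat.add_comm]
    rw [h1, List.filter_map, List.map_map]
    congr 2
    apply List.filter_congr
    intro i _
    simp only [Function.comp]
    by_cases h2 : i % 2 = k % 2
    · rw [decide_eq_true h2, decide_eq_true]
      omega
    · rw [decide_eq_false h2, decide_eq_false]
      omega
  · intro i hi
    rw [List.mem_filter, List.mem_range'_1] at hi
    obtain ⟨⟨h1, h2⟩, h3⟩ := hi
    exact h i h1 (by omega) (by simpa using h3)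

/-- The diagonal. -/
def Dg (g : ℕ → G) : ℕ → G
  | 0 => 1
  | k + 1 => g k * Dg g k

section
variable (m : ℕ) (g : ℕ → G)
  (hb : ∀ i, i + 1 < m → g i * g (i + 1) * g i = g (i + 1) * g i * g (i + 1))
  (hc : ∀ i j, i + 2 ≤ j → j < m → g i * g j = g j * g i)
include hb hc

omit hb in
theorem Dg_comm (k i : ℕ) (hki : k + 1 ≤ i) (him : i < m) : g i * Dg g k = Dg g k * g i := by
  induction k with
  | zero => simp [Dg]
  | succ k ih =>
    rw [Dg, ← mul_assoc, ← hc k i (by omega) him, mul_assoc, ih (by omega), mul_assoc]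

theorem Dg_shift (k i : ℕ) (hik : i + 1 < k) (hk : k ≤ m) :
    g i * Dg g k = Dg g k * g (i + 1) := by
  induction k with
  | zero => omega
  | succ k ih =>
    by_cases h : i + 1 = k
    · subst h
      rw [Dg, Dg]
      calc g i * (g (i + 1) * (g i * Dg g i)) = (g i * g (i + 1) * g i) * Dg g i := by group
        _ = g (i + 1) * g i * (g (i + 1) * Dg g i) := by rw [hb i (by omega)]; group
        _ = g (i + 1) * g i * (Dg g i * g (i + 1)) := by
          rw [Dg_comm m g hc i (i + 1) (by omega) (by omega)]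
        _ = _ := by group
    · rw [Dg, ← mul_assoc, hc i k (by omega) (by omega), mul_assoc, ih (by omega) (by omega),
        mul_assoc]

omit hb in
/-- Elements of the same parity commute. -/
theorem same (i j : ℕ) (hi : i < m) (hj : j < m) (h : i % 2 = j % 2) : g i * g j = g j * g i := by
  rcases lt_trichotomy i j with h1 | h1 | h1
  · exact hc i j (by omega) hj
  · rw [h1]
  · exact (hc j i (by omega) hi).symm

/-- One step. -/
theorem step (k : ℕ) (hk : k + 1 ≤ m) :
    Sp g (k % 2) 0 m * (Sp g ((k + 1) % 2) (k + 1) m * Dg g k) =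
      Sp g (k % 2) (k + 2) m * Dg g (k + 1) * Sp g ((k + 1) % 2) 1 m := by
  have e1 : Sp g (k % 2) 0 m = Sp g (k % 2) (k + 1) m * (g k * Sp g (k % 2) 0 k) := by
    rw [Sp_split g (k % 2) (Nat.zero_le k) (show k ≤ m by omega),
      Sp_split g (k % 2) (show k ≤ k + 1 by omega) hk, Sp_one g _ k rfl]
    have h1 : g k * Sp g (k % 2) (k + 1) m = Sp g (k % 2) (k + 1) m * g k := by
      apply Sp_comm
      intro i h1 h2 h3
      exact same m g hc k i (by omega) h2 h3.symm
    have h2 : Sp g (k % 2) 0 k * (g k * Sp g (k % 2) (k + 1) m) =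
        (g k * Sp g (k % 2) (k + 1) m) * Sp g (k % 2) 0 k := by
      symm
      apply Sp_comm
      intro i h1 h2 h3
      have h4 : g i * Sp g (k % 2) (k + 1) m = Sp g (k % 2) (k + 1) m * g i := by
        apply Sp_comm
        intro j h5 h6 h7
        exact same m g hc i j (by omega) h6 (by omega)
      rw [mul_assoc, ← h4, ← mul_assoc, same m g hc k i (by omega) (by omega) h3.symm]
      group
    rw [h2, h1]
    group
  have e2 : Sp g ((k + 1) % 2) (k + 1) m * Dg g k = Dg g k * Sp g ((k + 1) % 2) (k + 1) m := by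
    symm
    apply Sp_comm
    intro i h1 h2 h3
    exact (Dg_comm m g hc k i (by omega) h2).symm
  have e3 : Sp g (k % 2) 0 k * Dg g k = Dg g k * Sp g ((k + 1) % 2) 1 (k + 1) := by
    apply Sp_shift
    intro i h1 h2 h3
    exact Dg_shift m g hb hc k i (by omega) (by omega)
  have e4 : Sp g ((k + 1) % 2) 1 m = Sp g ((k + 1) % 2) 1 (k + 1) * Sp g ((k + 1) % 2) (k + 1) m :=
    Sp_split g _ (by omega) hk
  have e5 : Sp g (k % 2) (k + 1) m = Sp g (k % 2) (k + 2) m := Sp_skip g _ _ _ (by omega)
  rw [e1, e2, e4, e5, Dg]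
  calc Sp g (k % 2) (k + 2) m * (g k * Sp g (k % 2) 0 k) *
        (Dg g k * Sp g ((k + 1) % 2) (k + 1) m)
      = Sp g (k % 2) (k + 2) m * g k * (Sp g (k % 2) 0 k * Dg g k) *
        Sp g ((k + 1) % 2) (k + 1) m := by group
    _ = _ := by rw [e3]; group

/-- The last step, when the layer is completely on the left. -/
theorem stepL : Sp g (m % 2) 0 m * Dg g m = Dg g m * Sp g ((m + 1) % 2) 1 m := by
  rw [Sp_shift g g m 0 m]
  · congr 1
    by_cases h : 1 ≤ m
    · rw [Sp_split g _ h (show m ≤ m + 1 by omega), Sp_one' g _ m (by omega), mul_one]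
    · have h1 : m = 0 := by omega
      subst h1
      rw [Sp_empty _ _ _ _ (by omega), Sp_empty _ _ _ _ (by omega)]
  · intro i h1 h2 h3
    exact Dg_shift m g hb hc m i (by omega) le_rfl

/-- The layers. -/
theorem claimA (k : ℕ) (hk : k ≤ m) :
    alt (k + 1) (Sp g ((k + 1) % 2) 0 m) (Sp g (k % 2) 0 m) =
      Sp g ((k + 1) % 2) (k + 1) m * Dg g k *
        alt k (Sp g (k % 2) 1 m) (Sp g ((k + 1) % 2) 1 m) := by
  induction k with
  | zero =>
    rw [alt_one, alt_zero, Dg, mul_one, mul_one]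
    exact Sp_skip g _ _ _ (by omega)
  | succ k ih =>
    have e1 : (k + 1 + 1) % 2 = k % 2 := by omega
    rw [alt_succ, e1, ih (by omega), alt_succ k]
    have h := step m g hb hc k hk
    calc _ = Sp g (k % 2) 0 m * (Sp g ((k + 1) % 2) (k + 1) m * Dg g k) *
          alt k (Sp g (k % 2) 1 m) (Sp g ((k + 1) % 2) 1 m) := by group
      _ = _ := by rw [h]; group

theorem claimB (k : ℕ) (hk : k + 1 ≤ m) :
    alt (k + 1) (Sp g (k % 2) 0 m) (Sp g ((k + 1) % 2) 0 m) =
      Sp g (k % 2) (k + 2) m * Dg g (k + 1) *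
        alt k (Sp g ((k + 1) % 2) 1 m) (Sp g (k % 2) 1 m) := by
  induction k with
  | zero =>
    rw [alt_one, alt_zero, Dg, Dg, mul_one, mul_one]
    have h1 : Sp g (0 % 2) 0 m = g 0 * Sp g (0 % 2) 2 m := by
      rw [Sp_split g _ (Nat.zero_le 1) hk, Sp_one g _ 0 rfl]
      rw [Sp_skip g (0 % 2) 1 m (by omega)]
    rw [h1]
    apply Sp_comm
    intro i h1 h2 h3
    exact same m g hc 0 i (by omega) h2 h3.symm
  | succ k ih =>
    have e1 : (k + 1 + 1) % 2 = k % 2 := by omega
    rw [alt_succ, e1, ih (by omega), alt_succ k]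
    have h := step m g hb hc (k + 1) hk
    rw [e1] at h
    calc _ = Sp g ((k + 1) % 2) 0 m * (Sp g (k % 2) (k + 2) m * Dg g (k + 1)) *
          alt k (Sp g ((k + 1) % 2) 1 m) (Sp g (k % 2) 1 m) := by group
      _ = Sp g ((k + 1) % 2) (k + 3) m * Dg g (k + 2) * Sp g (k % 2) 1 m *
          alt k (Sp g ((k + 1) % 2) 1 m) (Sp g (k % 2) 1 m) := by
        have h2 : Sp g ((k + 1) % 2) 0 m * (Sp g (k % 2) (k + 2) m * Dg g (k + 1)) =
          Sp g ((k + 1) % 2) (k + 3) m * Dg g (k + 2) * Sp g (k % 2) 1 m := h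
        rw [h2]
      _ = _ := by group

end

theorem both : ∀ (m : ℕ) (g : ℕ → G),
    (∀ i, i + 1 < m → g i * g (i + 1) * g i = g (i + 1) * g i * g (i + 1)) →
    (∀ i j, i + 2 ≤ j → j < m → g i * g j = g j * g i) →
    alt (m + 1) (Sp g 0 0 m) (Sp g 1 0 m) = alt (m + 1) (Sp g 1 0 m) (Sp g 0 0 m) := by
  intro m
  induction m with
  | zero =>
    intro g _ _
    rw [Sp_self, Sp_self]
  | succ j ih =>
    intro g hb hc
    have hi := ih (fun i => g (i + 1)) (fun i h => hb (i + 1) (by omega))
      (fun i k h1 h2 => hc (i + 1) (k + 1) (by omega) (by omega))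
    have e0 : ∀ k, Sp (fun i => g (i + 1)) (k % 2) 0 j = Sp g ((k + 1) % 2) 1 (j + 1) := by
      intro k
      have := Sp_shift (fun i => g (i + 1)) g k 0 j 1 (fun i _ _ _ => by simp)
      rwa [mul_one, one_mul] at this
    have hi' : ∀ k, alt (j + 1) (Sp g (k % 2) 1 (j + 1)) (Sp g ((k + 1) % 2) 1 (j + 1)) =
        alt (j + 1) (Sp g ((k + 1) % 2) 1 (j + 1)) (Sp g (k % 2) 1 (j + 1)) := by
      intro k
      have h0 := e0 0
      have h1 := e0 1
      norm_num at h0 h1
      rcases Nat.mod_two_eq_zero_or_one k with hk | hk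
      · rw [hk, show (k + 1) % 2 = 1 by omega, ← h0, ← h1]
        exact hi.symm
      · rw [hk, show (k + 1) % 2 = 0 by omega, ← h0, ← h1]
        exact hi
    have hA := claimA (j + 1) g hb hc (j + 1) le_rfl
    rw [Sp_empty g _ (j + 1 + 1) (j + 1) (by omega), one_mul] at hA
    have hB : alt (j + 1 + 1) (Sp g ((j + 1) % 2) 0 (j + 1)) (Sp g ((j + 1 + 1) % 2) 0 (j + 1)) =
        Dg g (j + 1) * alt (j + 1) (Sp g ((j + 1 + 1) % 2) 1 (j + 1))
          (Sp g ((j + 1) % 2) 1 (j + 1)) := by
      have e1 : (j + 1 + 1) % 2 = j % 2 := by omega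
      rw [alt_succ, e1, claimB (j + 1) g hb hc j le_rfl, Sp_empty g _ (j + 2) (j + 1) (by omega),
        one_mul, ← mul_assoc, stepL (j + 1) g hb hc, e1, alt_succ j, mul_assoc]
    have hAB : alt (j + 1 + 1) (Sp g ((j + 1 + 1) % 2) 0 (j + 1)) (Sp g ((j + 1) % 2) 0 (j + 1)) =
        alt (j + 1 + 1) (Sp g ((j + 1) % 2) 0 (j + 1)) (Sp g ((j + 1 + 1) % 2) 0 (j + 1)) := by
      rw [hA, hB, hi']
    rcases Nat.mod_two_eq_zero_or_one j with hk | hk
    · rw [show (j + 1 + 1) % 2 = 0 by omega, show (j + 1) % 2 = 1 by omega] at hAB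
      exact hAB
    · rw [show (j + 1 + 1) % 2 = 1 by omega, show (j + 1) % 2 = 0 by omega] at hAB
      exact hAB.symm

/-- PTH. -/
theorem pth : PthStmt := by
  intro G _ m g hb hc
  have h := both m g hb hc
  unfold Sp at h
  simp only [Nat.sub_zero, ← List.range_eq_range'] at h
  exact h

end Unf.H88
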