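import Pool.Agent.Helper12_UNF.Stmts2

set_option autoImplicit false

/-!
# Squad UNF, module TWI: the twists exist and satisfy the braid relations
-/

namespace Unf.H88

open Art

variable {N : ℕ}

/-- The edge `n` of the curve `i`. -/
def ee (i : Fin N) (n : ℕ) : FreeGroup (Xg N) := eg i (Fin.ofNat (N + 1) n)

/-- The product of the edges `a, ..., b - 1` of the curve `i`. -/
def pr (i : Fin N) (a b : ℕ) : FreeGroup (Xg N) := ((List.range' a (b - a)).map (ee i)).prod

theorem ee_val (i : Fin N) (j : Fin (N + 1)) : ee i j.1 = eg i j := by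
  unfold ee
  congr 1
  ext
  simp

theorem pr_split (i : Fin N) {a b c : ℕ} (hab : a ≤ b) (hbc : b ≤ c) :
    pr i a c = pr i a b * pr i b c := by
  unfold pr
  have h : List.range' a (c - a) = List.range' a (b - a) ++ List.range' b (c - b) := by
    have := List.range'_append_1 (s := a) (m := b - a) (n := c - b)
    rw [show a + (b - a) = b by omega, show b - a + (c - b) = c - a by omega] at this
    exact this.symm
  rw [h, List.map_append, List.prod_append]

theorem pr_one (i : Fin N) (a : ℕ) : pr i a (a + 1) = ee i a := by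
  unfold pr
  rw [show a + 1 - a = 1 by omega]
  simp [List.range']

theorem cyc_eq (i : Fin N) (r : ℕ) (hr : r ≤ N + 1) : cyc i r = pr i r (N + 1) * pr i 0 r := by
  have h1 : (List.finRange (N + 1)).map (eg i) = (List.range' 0 (N + 1)).map (ee i) := by
    rw [← List.range_eq_range']
    apply List.ext_getElem
    · simp
    · intro n h1 h2
      simp only [List.getElem_map, List.getElem_finRange, List.getElem_range]
      rw [← ee_val]
      simp
  unfold cyc pr
  rw [List.map_rotate, h1, ← List.map_rotate, List.rotate_eq_drop_append_take (by simpa using hr),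
    List.map_append, List.prod_append]
  congr 3
  · rw [List.drop_range']
    simp
  · rw [List.take_range'_of_length_ge hr]
    rfl

/-- A product of fixed edges is fixed. -/
theorem pr_fix (τ : FreeGroup (Xg N) →* FreeGroup (Xg N)) (i : Fin N) (a b : ℕ) (hb : b ≤ N + 1)
    (h : ∀ j : Fin (N + 1), a ≤ j.1 → j.1 < b → τ (eg i j) = eg i j) : τ (pr i a b) = pr i a b := by
  unfold pr
  rw [map_list_prod, List.map_map]
  congr 1
  apply List.map_congr_left
  intro n hn
  rw [List.mem_range'_1] at hn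
  have := h ⟨n, by omega⟩ hn.1 (by show n < b; omega)
  rw [← ee_val] at this
  exact this

/-- The effect of a twist on a product of edges. -/
theorem pr_left (τ : FreeGroup (Xg N) →* FreeGroup (Xg N)) (i : Fin N) (v : Fin N)
    (b : FreeGroup (Xg N)) (a d : ℕ) (had : a ≤ v.1 + 1) (hd : v.1 + 1 < d) (hdN : d ≤ N + 1)
    (h : ∀ j : Fin (N + 1), j ≠ v.succ → τ (eg i j) = eg i j)
    (hb : τ (eg i v.succ) = b * eg i v.succ) :
    τ (pr i a d) = pr i a (v.1 + 1) * b * pr i (v.1 + 1) d := by
  rw [pr_split i had hd.le, pr_split i (show v.1 + 1 ≤ v.1 + 1 + 1 by omega) (show _ ≤ d by omega),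
    pr_one, map_mul, map_mul, pr_fix τ i a (v.1 + 1) (by omega), pr_fix τ i (v.1 + 1 + 1) d hdN]
  · have e := ee_val i v.succ
    rw [Fin.val_succ] at e
    rw [e, hb]
    group
  · intro j h1 h2
    apply h
    rintro rfl
    rw [Fin.val_succ] at h1
    omega
  · intro j h1 h2
    apply h
    rintro rfl
    rw [Fin.val_succ] at h2
    omega

theorem pr_right (τ : FreeGroup (Xg N) →* FreeGroup (Xg N)) (i : Fin N) (v : Fin N)
    (b : FreeGroup (Xg N)) (a d : ℕ) (had : a ≤ v.1) (hd : v.1 < d) (hdN : d ≤ N + 1)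
    (h : ∀ j : Fin (N + 1), j ≠ v.castSucc → τ (eg i j) = eg i j)
    (hb : τ (eg i v.castSucc) = eg i v.castSucc * b) :
    τ (pr i a d) = pr i a (v.1 + 1) * b * pr i (v.1 + 1) d := by
  rw [pr_split i had hd.le, pr_split i (show v.1 ≤ v.1 + 1 by omega) (show _ ≤ d by omega),
    pr_split i had (show v.1 ≤ v.1 + 1 by omega),
    pr_one, map_mul, map_mul, pr_fix τ i a v.1 (by omega), pr_fix τ i (v.1 + 1) d hdN]
  · have e := ee_val i v.castSucc
    rw [Fin.val_castSucc] at e
    rw [e, hb]
    group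
  · intro j h1 h2
    apply h
    rintro rfl
    rw [Fin.val_castSucc] at h1
    omega
  · intro j h1 h2
    apply h
    rintro rfl
    rw [Fin.val_castSucc] at h2
    omega

/-- The effect on a loop. -/
theorem cyc_change (τ : FreeGroup (Xg N) →* FreeGroup (Xg N)) (i : Fin N) (v : Fin N)
    (b : FreeGroup (Xg N)) (r : ℕ) (hr : r ≤ N)
    (h : ((∀ j : Fin (N + 1), j ≠ v.succ → τ (eg i j) = eg i j) ∧
        τ (eg i v.succ) = b * eg i v.succ) ∨
      ((∀ j : Fin (N + 1), j ≠ v.castSucc → τ (eg i j) = eg i j) ∧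
        τ (eg i v.castSucc) = eg i v.castSucc * b)) :
    ∃ α β, cyc i r = α * β ∧ β * α = cyc i (v.1 + 1) ∧ τ (cyc i r) = α * b * β ∧
      (∀ τ' : FreeGroup (Xg N) →* FreeGroup (Xg N), (∀ j, τ' (eg i j) = eg i j) →
        τ' α = α ∧ τ' β = β) := by
  have hv := v.2
  have hcase : (τ (pr i r (N + 1)) = pr i r (v.1 + 1) * b * pr i (v.1 + 1) (N + 1) ∧
      τ (pr i 0 r) = pr i 0 r ∧ r ≤ v.1 + 1) ∨
      (τ (pr i r (N + 1)) = pr i r (N + 1) ∧
        τ (pr i 0 r) = pr i 0 (v.1 + 1) * b * pr i (v.1 + 1) r ∧ v.1 + 1 ≤ r) := by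
    rcases h with ⟨h1, h2⟩ | ⟨h1, h2⟩
    · by_cases hc : r ≤ v.1 + 1
      · left
        refine ⟨pr_left τ i v b r (N + 1) hc (by omega) le_rfl h1 h2, ?_, hc⟩
        apply pr_fix τ i 0 r (by omega)
        intro j _ h4
        apply h1
        rintro rfl
        rw [Fin.val_succ] at h4
        omega
      · right
        refine ⟨?_, pr_left τ i v b 0 r (by omega) (by omega) (by omega) h1 h2, by omega⟩
        apply pr_fix τ i r (N + 1) le_rfl
        intro j h3 _
        apply h1
        rintro rfl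
        rw [Fin.val_succ] at h3
        omega
    · by_cases hc : r ≤ v.1
      · left
        refine ⟨pr_right τ i v b r (N + 1) hc (by omega) le_rfl h1 h2, ?_, by omega⟩
        apply pr_fix τ i 0 r (by omega)
        intro j _ h4
        apply h1
        rintro rfl
        rw [Fin.val_castSucc] at h4
        omega
      · right
        refine ⟨?_, pr_right τ i v b 0 r (by omega) (by omega) (by omega) h1 h2, by omega⟩
        apply pr_fix τ i r (N + 1) le_rfl
        intro j h3 _
        apply h1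
        rintro rfl
        rw [Fin.val_castSucc] at h3
        omega
  rcases hcase with ⟨h1, h2, h3⟩ | ⟨h1, h2, h3⟩
  · refine ⟨pr i r (v.1 + 1), pr i (v.1 + 1) (N + 1) * pr i 0 r, ?_, ?_, ?_, ?_⟩
    · rw [cyc_eq i r (by omega), pr_split i h3 (show v.1 + 1 ≤ N + 1 by omega)]
      group
    · rw [cyc_eq i (v.1 + 1) (by omega), pr_split i (Nat.zero_le r) h3]
      group
    · rw [cyc_eq i r (by omega), map_mul, h1, h2]
      group
    · intro τ' h4
      constructor
      · exact pr_fix τ' i _ _ (by omega) (fun j _ _ => h4 j)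
      · rw [map_mul, pr_fix τ' i _ _ (by omega) (fun j _ _ => h4 j),
          pr_fix τ' i _ _ (by omega) (fun j _ _ => h4 j)]
  · refine ⟨pr i r (N + 1) * pr i 0 (v.1 + 1), pr i (v.1 + 1) r, ?_, ?_, ?_, ?_⟩
    · rw [cyc_eq i r (by omega), pr_split i (Nat.zero_le (v.1 + 1)) h3]
      group
    · rw [cyc_eq i (v.1 + 1) (by omega), pr_split i h3 (show r ≤ N + 1 by omega)]
      group
    · rw [cyc_eq i r (by omega), map_mul, h1, h2]
      group
    · intro τ' h4
      constructor
      · rw [map_mul, pr_fix τ' i _ _ (by omega) (fun j _ _ => h4 j),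
          pr_fix τ' i _ _ (by omega) (fun j _ _ => h4 j)]
      · exact pr_fix τ' i _ _ (by omega) (fun j _ _ => h4 j)

theorem cyc_fix (τ : FreeGroup (Xg N) →* FreeGroup (Xg N)) (i : Fin N) (r : ℕ)
    (h : ∀ j, τ (eg i j) = eg i j) : τ (cyc i r) = cyc i r := by
  unfold cyc
  rw [map_list_prod, List.map_map]
  congr 1
  apply List.map_congr_left
  intro j _
  exact h j

/-! ### Consequences of the defining formulas -/

section
variable {adj : Fin N → Fin N → Prop} (hirr : ∀ i, ¬ adj i i) (hsym : ∀ i j, adj i j → adj j i)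
  {T : Fin N → MulAut (FreeGroup (Xg N))} (hT : Tw adj T)
include hirr hT

theorem own (i : Fin N) (j : Fin (N + 1)) : (T i).toMonoidHom (eg i j) = eg i j :=
  hT.e_fix i i j (fun h => hirr i h.1) (fun h => hirr i h.1)

omit hirr in
theorem far (i t : Fin N) (h : ¬ adj i t) (j : Fin (N + 1)) :
    (T i).toMonoidHom (eg t j) = eg t j :=
  hT.e_fix i t j (fun h' => h h'.1) (fun h' => h h'.1)

omit hirr in
/-- The twist `T t` on the curve `i`. -/
theorem onCurve (i t : Fin N) (hit : adj t i) :
    (t < i → (∀ j : Fin (N + 1), j ≠ t.succ → (T t).toMonoidHom (eg i j) = eg i j) ∧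
      (T t).toMonoidHom (eg i t.succ) = cyc t (i.1 + 1) * eg i t.succ) ∧
    (i < t → (∀ j : Fin (N + 1), j ≠ t.castSucc → (T t).toMonoidHom (eg i j) = eg i j) ∧
      (T t).toMonoidHom (eg i t.castSucc) = eg i t.castSucc * (cyc t (i.1 + 1))⁻¹) := by
  constructor
  · intro h
    exact ⟨fun j hj => hT.e_fix t i j (fun h' => hj h'.2.2) (fun h' => absurd h'.2.1 (by omega)),
      hT.out t i hit h⟩
  · intro h
    exact ⟨fun j hj => hT.e_fix t i j (fun h' => absurd h'.2.1 (by omega)) (fun h' => hj h'.2.2),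
      hT.inn t i hit h⟩

include hsym in
/-- The key identity. -/
theorem key (i t : Fin N) (hit : adj i t) (r : ℕ) (hr : r ≤ N) :
    T i (T t (cyc i r)) * cyc i r = T t (cyc i r) := by
  have hti := hsym i t hit
  have hne : i ≠ t := by
    rintro rfl
    exact hirr i hit
  rcases lt_or_gt_of_ne hne with hlt | hlt
  · -- `i < t`
    obtain ⟨g1, g2⟩ := (onCurve hT i t hti).2 hlt
    obtain ⟨f1, f2⟩ := (onCurve hT t i hit).1 hlt
    obtain ⟨α, β, e1, e2, e3, e4⟩ := cyc_change (T t).toMonoidHom i t _ r hr (Or.inr ⟨g1, g2⟩)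
    obtain ⟨e5, e6⟩ := e4 (T i).toMonoidHom (own hirr hT i)
    have hB : (T i).toMonoidHom (cyc t (i.1 + 1)) = cyc i (t.1 + 1) * cyc t (i.1 + 1) := by
      rw [cyc_eq t (i.1 + 1) (by omega), map_mul,
        pr_left _ t i _ (i.1 + 1) (N + 1) le_rfl (by omega) le_rfl f1 f2, pr_fix _ t 0 (i.1 + 1)
        (by omega)]
      · have : pr t (i.1 + 1) (i.1 + 1) = 1 := by simp [pr]
        rw [this]
        group
      · intro j _ h4
        apply f1
        rintro rfl
        rw [Fin.val_succ] at h4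
        omega
    change (T i).toMonoidHom ((T t).toMonoidHom (cyc i r)) * cyc i r = (T t).toMonoidHom (cyc i r)
    rw [e3, map_mul, map_mul, e5, e6, map_inv, hB, e1, ← e2]
    group
  · obtain ⟨g1, g2⟩ := (onCurve hT i t hti).1 hlt
    obtain ⟨f1, f2⟩ := (onCurve hT t i hit).2 hlt
    obtain ⟨α, β, e1, e2, e3, e4⟩ := cyc_change (T t).toMonoidHom i t _ r hr (Or.inl ⟨g1, g2⟩)
    obtain ⟨e5, e6⟩ := e4 (T i).toMonoidHom (own hirr hT i)
    have hB : (T i).toMonoidHom (cyc t (i.1 + 1)) = cyc t (i.1 + 1) * (cyc i (t.1 + 1))⁻¹ := by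
      rw [cyc_eq t (i.1 + 1) (by omega), map_mul,
        pr_right _ t i _ 0 (i.1 + 1) (by omega) (by omega) (by omega) f1 f2,
        pr_fix _ t (i.1 + 1) (N + 1) le_rfl]
      · have : pr t (i.1 + 1) (i.1 + 1) = 1 := by simp [pr]
        rw [this]
        group
      · intro j h4 _
        apply f1
        rintro rfl
        rw [Fin.val_castSucc] at h4
        omega
    change (T i).toMonoidHom ((T t).toMonoidHom (cyc i r)) * cyc i r = (T t).toMonoidHom (cyc i r)
    rw [e3, map_mul, map_mul, e5, e6, hB, e1, ← e2]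
    group

omit hirr in
/-- Every generator is fixed by `T t` or has a simple image and is fixed by the other twists. -/
theorem image (t : Fin N) (x : Xg N) :
    T t (FreeGroup.of x) = FreeGroup.of x ∨
      ((∃ r ≤ N, T t (FreeGroup.of x) = cyc t r * FreeGroup.of x ∨
        T t (FreeGroup.of x) = FreeGroup.of x * (cyc t r)⁻¹) ∧
        ∀ i, i ≠ t → T i (FreeGroup.of x) = FreeGroup.of x) := by
  rcases x with ⟨s, j⟩ | s
  · by_cases h1 : adj t s ∧ t < s ∧ j = t.succ
    · right
      obtain ⟨h1, h2, rfl⟩ := h1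
      refine ⟨⟨s.1 + 1, by omega, Or.inl (hT.out t s h1 h2)⟩, ?_⟩
      intro i hi
      apply hT.e_fix i s
      · rintro ⟨_, _, h5⟩
        exact hi (Fin.succ_injective _ h5).symm
      · rintro ⟨_, h4, h5⟩
        have := congrArg Fin.val h5
        rw [Fin.val_succ, Fin.val_castSucc] at this
        rw [Fin.lt_def] at h2 h4
        omega
    · by_cases h2 : adj t s ∧ s < t ∧ j = t.castSucc
      · right
        obtain ⟨h0, h2, rfl⟩ := h2
        refine ⟨⟨s.1 + 1, by omega, Or.inr (hT.inn t s h0 h2)⟩, ?_⟩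
        intro i hi
        apply hT.e_fix i s
        · rintro ⟨_, h4, h5⟩
          have := congrArg Fin.val h5
          rw [Fin.val_succ, Fin.val_castSucc] at this
          rw [Fin.lt_def] at h2 h4
          omega
        · rintro ⟨_, _, h5⟩
          exact hi (Fin.castSucc_injective _ h5).symm
      · left
        exact hT.e_fix t s j h1 h2
  · by_cases h : s = t
    · right
      subst h
      refine ⟨⟨0, by omega, Or.inl (hT.hh s)⟩, fun i hi => hT.h_fix i s (Ne.symm hi)⟩
    · left
      exact hT.h_fix t s h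

include hsym in
theorem braid (i t : Fin N) (hit : adj i t) : T i * T t * T i = T t * T i * T t := by
  have hti := hsym i t hit
  have hne : i ≠ t := by
    rintro rfl
    exact hirr i hit
  have main : ∀ (i t : Fin N), adj i t → ∀ x : Xg N,
      (∃ r ≤ N, T i (FreeGroup.of x) = cyc i r * FreeGroup.of x ∨
        T i (FreeGroup.of x) = FreeGroup.of x * (cyc i r)⁻¹) →
      T t (FreeGroup.of x) = FreeGroup.of x →
      T i (T t (T i (FreeGroup.of x))) = T t (T i (FreeGroup.of x)) := by
    intro i t hit x hr ht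
    obtain ⟨r, hr, h | h⟩ := hr
    · have hk := key hirr hsym hT i t hit r hr
      rw [h, map_mul, map_mul, ht, h, ← mul_assoc, hk]
    · have hk := key hirr hsym hT i t hit r hr
      rw [h, map_mul, map_mul, ht, map_inv, map_inv, h, mul_assoc, ← mul_inv_rev, hk]
  apply MulEquiv.toMonoidHom_injective
  apply FreeGroup.ext_hom
  intro x
  change T i (T t (T i (FreeGroup.of x))) = T t (T i (T t (FreeGroup.of x)))
  rcases image hT i x with h1 | ⟨h1, h1'⟩
  · rcases image hT t x with h2 | ⟨h2, h2'⟩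
    · rw [h1, h2, h1, h2]
    · rw [h1, main t i hti x h2 h1]
  · have h2 := h1' t (Ne.symm hne)
    rw [h2, main i t hit x h1 h2]

omit hirr in
theorem commute (i t : Fin N) (hne : i ≠ t) (hit : ¬ adj i t) (hti : ¬ adj t i) :
    T i * T t = T t * T i := by
  have main : ∀ (i t : Fin N), ¬ adj t i → ∀ x : Xg N,
      (∃ r ≤ N, T i (FreeGroup.of x) = cyc i r * FreeGroup.of x ∨
        T i (FreeGroup.of x) = FreeGroup.of x * (cyc i r)⁻¹) →
      T t (FreeGroup.of x) = FreeGroup.of x →
      T t (T i (FreeGroup.of x)) = T i (FreeGroup.of x) := by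
    intro i t hit x hr ht
    have hc : ∀ r, T t (cyc i r) = cyc i r := fun r => cyc_fix (T t).toMonoidHom i r (far hT t i hit)
    obtain ⟨r, hr, h | h⟩ := hr
    · rw [h, map_mul, hc, ht]
    · rw [h, map_mul, map_inv, hc, ht]
  apply MulEquiv.toMonoidHom_injective
  apply FreeGroup.ext_hom
  intro x
  change T i (T t (FreeGroup.of x)) = T t (T i (FreeGroup.of x))
  rcases image hT i x with h1 | ⟨h1, h1'⟩
  · rcases image hT t x with h2 | ⟨h2, h2'⟩
    · rw [h1, h2, h1]
    · rw [h1, main t i hit x h2 h1]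
  · have h2 := h1' t (Ne.symm hne)
    rw [h2, main i t hti x h1 h2]

end

/-! ### Existence -/

open Classical in
/-- The image of a generator under a power of the twist. -/
noncomputable def fg (adj : Fin N → Fin N → Prop) (i : Fin N) (z : ℤ) : Xg N → FreeGroup (Xg N)
  | Sum.inl (t, j) =>
    if adj i t ∧ i < t ∧ j = i.succ then cyc i (t.1 + 1) ^ z * eg t j
    else if adj i t ∧ t < i ∧ j = i.castSucc then eg t j * cyc i (t.1 + 1) ^ (-z)
    else eg t j
  | Sum.inr t => if t = i then cyc i 0 ^ z * hg t else hg t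

noncomputable def fh (adj : Fin N → Fin N → Prop) (i : Fin N) (z : ℤ) :
    FreeGroup (Xg N) →* FreeGroup (Xg N) := FreeGroup.lift (fg adj i z)

theorem fh_eg (adj : Fin N → Fin N → Prop) (i : Fin N) (z : ℤ) (t : Fin N) (j : Fin (N + 1)) :
    fh adj i z (eg t j) = fg adj i z (Sum.inl (t, j)) := FreeGroup.lift_apply_of

theorem fh_hg (adj : Fin N → Fin N → Prop) (i : Fin N) (z : ℤ) (t : Fin N) :
    fh adj i z (hg t) = fg adj i z (Sum.inr t) := FreeGroup.lift_apply_of

theorem fh_cyc (adj : Fin N → Fin N → Prop) (hirr : ∀ i, ¬ adj i i) (i : Fin N) (z : ℤ) (r : ℕ) :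
    fh adj i z (cyc i r) = cyc i r := by
  apply cyc_fix
  intro j
  rw [fh_eg, fg, if_neg (fun h => hirr i h.1), if_neg (fun h => hirr i h.1)]

theorem fh_comp (adj : Fin N → Fin N → Prop) (hirr : ∀ i, ¬ adj i i) (i : Fin N) (z w : ℤ) :
    (fh adj i z).comp (fh adj i w) = fh adj i (z + w) := by
  apply FreeGroup.ext_hom
  intro x
  rw [MonoidHom.comp_apply]
  rcases x with ⟨t, j⟩ | t
  · change fh adj i z (fh adj i w (eg t j)) = fh adj i (z + w) (eg t j)
    rw [fh_eg, fh_eg, fg, fg]
    split_ifs with h1 h2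
    · rw [map_mul, map_zpow, fh_cyc adj hirr, fh_eg, fg, if_pos h1, ← mul_assoc, ← zpow_add,
        add_comm w z]
    · rw [map_mul, map_zpow, fh_cyc adj hirr, fh_eg, fg, if_neg h1, if_pos h2, mul_assoc,
        ← zpow_add, neg_add]
    · rw [fh_eg, fg, if_neg h1, if_neg h2]
  · change fh adj i z (fh adj i w (hg t)) = fh adj i (z + w) (hg t)
    rw [fh_hg, fh_hg, fg, fg]
    split_ifs with h1
    · rw [map_mul, map_zpow, fh_cyc adj hirr, fh_hg, fg, if_pos h1, ← mul_assoc, ← zpow_add,
        add_comm w z]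
    · rw [fh_hg, fg, if_neg h1]

theorem fh_zero (adj : Fin N → Fin N → Prop) (i : Fin N) : fh adj i 0 = MonoidHom.id _ := by
  apply FreeGroup.ext_hom
  intro x
  rcases x with ⟨t, j⟩ | t
  · change fh adj i 0 (eg t j) = eg t j
    rw [fh_eg, fg]
    split_ifs <;> simp
  · change fh adj i 0 (hg t) = hg t
    rw [fh_hg, fg]
    split_ifs <;> simp

noncomputable def ft (adj : Fin N → Fin N → Prop) (hirr : ∀ i, ¬ adj i i) (i : Fin N) :
    MulAut (FreeGroup (Xg N)) :=
  MonoidHom.toMulEquiv (fh adj i 1) (fh adj i (-1))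
    (by rw [fh_comp adj hirr, neg_add_cancel, fh_zero])
    (by rw [fh_comp adj hirr, add_neg_cancel, fh_zero])

/-- TWI. -/
theorem twi : TwiStmt := by
  intro N adj hirr hsym
  have hT : Tw adj (ft adj hirr) := by
    refine ⟨?_, ?_, ?_, ?_, ?_⟩
    · intro i t h1 h2
      change fh adj i 1 (eg t i.succ) = _
      rw [fh_eg, fg, if_pos ⟨h1, h2, rfl⟩, zpow_one]
    · intro i t h1 h2
      change fh adj i 1 (eg t i.castSucc) = _
      rw [fh_eg, fg, if_neg (fun h => absurd h.2.1 (by omega)), if_pos ⟨h1, h2, rfl⟩, zpow_neg,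
        zpow_one]
    · intro i
      change fh adj i 1 (hg i) = _
      rw [fh_hg, fg, if_pos rfl, zpow_one]
    · intro i t h
      change fh adj i 1 (hg t) = _
      rw [fh_hg, fg, if_neg h]
    · intro i t j h1 h2
      change fh adj i 1 (eg t j) = _
      rw [fh_eg, fg, if_neg h1, if_neg h2]
  exact ⟨ft adj hirr, hT, fun i j h => braid hirr hsym hT i j h,
    fun i j h1 h2 => commute hT i j h1 h2 (fun h => h2 (hsym j i h))⟩

end Unf.H88
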